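import Mathlib

set_option autoImplicit false

open Cardinal Set Order

universe u

namespace Pool.Agent.H225Z.SMC

/-- size of an initial segment, at least `ℵ₀`. -/
noncomputable def sz {K : Type u} [LinearOrder K] (a : K) : Cardinal.{u} :=
  max (#(Iic a)) ℵ₀

theorem sz_mono {K : Type u} [LinearOrder K] {a b : K} (h : a ≤ b) : sz a ≤ sz b :=
  max_le_max (mk_le_mk_of_subset (Iic_subset_Iic.2 h)) le_rfl

theorem aleph0_le_sz {K : Type u} [LinearOrder K] (a : K) : ℵ₀ ≤ sz a := le_max_right _ _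

/-- `a` is not much longer than `b`. -/
def near {K : Type u} [LinearOrder K] (a b : K) : Prop := sz a ≤ succ (sz b)

theorem near_mono {K : Type u} [LinearOrder K] {a a' b b' : K} (h : near a b) (ha : a' ≤ a)
    (hb : b ≤ b') : near a' b' :=
  (sz_mono ha).trans (le_trans h (succ_le_succ (sz_mono hb)))

/-- the points of the poset: level, long coordinate, row. -/
@[ext] structure Pt (K : Type u) where
  lev : ℕ
  pos : K
  row : ℕ

def ple {K : Type u} [LinearOrder K] (x y : Pt K) : Prop :=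
  (x.lev = y.lev ∧ x.pos ≤ y.pos ∧ x.row ≤ y.row) ∨
    (x.lev = y.lev + 1 ∧ (x.row < y.row ∨ near x.pos y.pos)) ∨ y.lev + 2 ≤ x.lev

instance {K : Type u} [LinearOrder K] : PartialOrder (Pt K) where
  le := ple
  le_refl x := Or.inl ⟨rfl, le_rfl, le_rfl⟩
  le_trans x y z hxy hyz := by
    rcases hxy with ⟨h1, h2, h3⟩ | ⟨h1, h2⟩ | h1 <;>
      rcases hyz with ⟨g1, g2, g3⟩ | ⟨g1, g2⟩ | g1
    · exact Or.inl ⟨h1.trans g1, h2.trans g2, h3.trans g3⟩
    · refine Or.inr (Or.inl ⟨h1.trans g1, ?_⟩)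
      rcases g2 with g2 | g2
      · exact Or.inl (lt_of_le_of_lt h3 g2)
      · exact Or.inr (near_mono g2 h2 le_rfl)
    · exact Or.inr (Or.inr (by omega))
    · refine Or.inr (Or.inl ⟨by omega, ?_⟩)
      rcases h2 with h2 | h2
      · exact Or.inl (lt_of_lt_of_le h2 g3)
      · exact Or.inr (near_mono h2 le_rfl g2)
    · exact Or.inr (Or.inr (by omega))
    · exact Or.inr (Or.inr (by omega))
    · exact Or.inr (Or.inr (by omega))
    · exact Or.inr (Or.inr (by omega))
    · exact Or.inr (Or.inr (by omega))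
  le_antisymm x y hxy hyx := by
    rcases hxy with ⟨h1, h2, h3⟩ | ⟨h1, h2⟩ | h1 <;>
      rcases hyx with ⟨g1, g2, g3⟩ | ⟨g1, g2⟩ | g1
    · exact Pt.ext h1 (le_antisymm h2 g2) (le_antisymm h3 g3)
    all_goals omega

theorem le_iff {K : Type u} [LinearOrder K] (x y : Pt K) : x ≤ y ↔
    (x.lev = y.lev ∧ x.pos ≤ y.pos ∧ x.row ≤ y.row) ∨
      (x.lev = y.lev + 1 ∧ (x.row < y.row ∨ near x.pos y.pos)) ∨ y.lev + 2 ≤ x.lev := Iff.rfl

theorem antichain_finite {K : Type u} [LinearOrder K] [WellFoundedLT K] (A : Set (Pt K))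
    (hA : IsAntichain (· ≤ ·) A) : A.Finite := by
  have hlev : ∀ n : ℕ, (A ∩ {x | x.lev = n}).Finite := by
    intro n
    have hinj : InjOn (fun x : Pt K => (x.pos, x.row)) (A ∩ {x | x.lev = n}) := by
      rintro x ⟨_, hx⟩ y ⟨_, hy⟩ hxy
      simp only [Prod.mk.injEq] at hxy
      exact Pt.ext (hx.trans hy.symm) hxy.1 hxy.2
    refine Finite.of_finite_image ?_ hinj
    apply WellQuasiOrderedLE.finite_of_isAntichain
    rintro _ ⟨x, hx, rfl⟩ _ ⟨y, hy, rfl⟩ hne hle
    have hxy : x ≠ y := fun h => hne (by rw [h])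
    exact hA hx.1 hy.1 hxy (Or.inl ⟨hx.2.trans hy.2.symm, hle.1, hle.2⟩)
  rcases A.eq_empty_or_nonempty with rfl | ⟨x, hx⟩
  · exact finite_empty
  · refine ((finite_Iic (x.lev + 1)).biUnion (fun n _ => hlev n)).subset ?_
    intro y hy
    simp only [mem_iUnion]
    refine ⟨y.lev, ?_, hy, rfl⟩
    by_contra hc
    have hc' : x.lev + 2 ≤ y.lev := by simp only [mem_Iic] at hc; omega
    have hne : y ≠ x := by rintro rfl; omega
    exact hA hy hx hne (Or.inr (Or.inr hc'))

theorem sz_lt_mk_near {K : Type u} [LinearOrder K] [WellFoundedLT K]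
    (H2 : ∀ b : K, ∃ a : K, ¬ near a b) (b : K) : sz b < #{a : K | near a b} := by
  by_contra hc
  rw [not_lt] at hc
  have hne : {a : K | ¬ near a b}.Nonempty := H2 b
  let g := wellFounded_lt.min _ hne
  have hg : ¬ near g b := wellFounded_lt.min_mem _ hne
  have hsub : Iic g ⊆ insert g {a : K | near a b} := by
    intro a ha
    rcases eq_or_lt_of_le (mem_Iic.1 ha) with h | h
    · exact Or.inl h
    · right
      by_contra hn
      exact wellFounded_lt.not_lt_min _ hn h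
  apply hg
  have h1 : #(Iic g) ≤ sz b := by
    calc #(Iic g) ≤ #(insert g {a : K | near a b} : Set K) := mk_le_mk_of_subset hsub
      _ ≤ #{a : K | near a b} + 1 := mk_insert_le
      _ ≤ sz b + sz b := add_le_add hc (one_le_aleph0.trans (aleph0_le_sz b))
      _ = sz b := add_eq_self (aleph0_le_sz b)
  exact (max_le h1 (aleph0_le_sz b)).trans (le_succ _)

theorem mk_small_le {K : Type u} [LinearOrder K] (b : K) :
    #{x : Pt K | x.pos ≤ b} ≤ sz b := by
  have hinj : Function.Injective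
      (fun x : {x : Pt K | x.pos ≤ b} => ((x.1.lev, ⟨x.1.pos, x.2⟩, x.1.row) : ℕ × Iic b × ℕ)) := by
    intro x y hxy
    simp only [Prod.mk.injEq, Subtype.mk.injEq] at hxy
    exact Subtype.ext (Pt.ext hxy.1 hxy.2.1 hxy.2.2)
  refine (mk_le_of_injective hinj).trans ?_
  simp only [mk_prod, mk_nat, lift_aleph0, lift_uzero]
  have h0 := aleph0_le_sz b
  have h1 : #(Iic b) ≤ sz b := le_max_left _ _
  calc ℵ₀ * (#(Iic b) * ℵ₀) ≤ sz b * (sz b * sz b) := by gcongr
    _ = sz b := by rw [mul_eq_self h0, mul_eq_self h0]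

/-- row `i` of level `n` of `C` is unbounded. -/
def Row {K : Type u} [LinearOrder K] (C : Set (Pt K)) (n i : ℕ) : Prop :=
  ∀ b : K, ∃ a : K, b ≤ a ∧ (⟨n, a, i⟩ : Pt K) ∈ C

theorem bounded_of_not_row {K : Type u} [LinearOrder K]
    (H1 : ∀ f : ℕ → K, ∃ b, ∀ i, f i ≤ b) (C : Set (Pt K)) (n : ℕ) (h : ∀ i, ¬ Row C n i) :
    ∃ b : K, ∀ x ∈ C, x.lev = n → x.pos ≤ b := by
  simp only [Row, not_forall, not_exists, not_and] at h
  choose f hf using h
  obtain ⟨b, hb⟩ := H1 f
  refine ⟨b, fun x hx hn => ?_⟩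
  by_contra hc
  apply hf x.row x.pos ((hb _).trans (not_le.1 hc).le)
  rw [← hn]
  exact hx

theorem row_le {K : Type u} [LinearOrder K] (H2 : ∀ b : K, ∃ a : K, ¬ near a b)
    {C : Set (Pt K)} (hC : IsChain (· ≤ ·) C) {n i : ℕ} (h : Row C n i) :
    ∀ x ∈ C, x.lev = n → x.row ≤ i := by
  intro x hx hn
  obtain ⟨a, ha⟩ := H2 x.pos
  have hlt : x.pos < a := by
    by_contra hc
    exact ha ((sz_mono (not_lt.1 hc)).trans (le_succ _))
  obtain ⟨a', ha', hm⟩ := h a
  rcases hC.total hx hm with hle | hle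
  · rcases (le_iff _ _).1 hle with ⟨_, _, h3⟩ | ⟨h1, _⟩ | h1
    · exact h3
    · simp only at h1; omega
    · simp only at h1; omega
  · rcases (le_iff _ _).1 hle with ⟨_, h2, _⟩ | ⟨h1, _⟩ | h1
    · exact absurd (ha'.trans h2) (not_le.2 hlt)
    · simp only at h1; omega
    · simp only at h1; omega

theorem row_lt {K : Type u} [LinearOrder K] [Nonempty K] (H2 : ∀ b : K, ∃ a : K, ¬ near a b)
    {C : Set (Pt K)} (hC : IsChain (· ≤ ·) C) {n i j : ℕ} (hi : Row C (n + 1) i)
    (hj : Row C n j) : i < j := by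
  obtain ⟨b, -, hb⟩ := hj (Classical.arbitrary K)
  obtain ⟨a, ha⟩ := H2 b
  obtain ⟨a', ha', hm⟩ := hi a
  rcases hC.total hm hb with hle | hle
  · rcases (le_iff _ _).1 hle with ⟨h1, _, _⟩ | ⟨_, h2⟩ | h1
    · simp only at h1; omega
    · rcases h2 with h2 | h2
      · exact h2
      · exact absurd (near_mono h2 ha' le_rfl) ha
    · simp only at h1; omega
  · rcases (le_iff _ _).1 hle with ⟨h1, _, _⟩ | ⟨h1, _⟩ | h1
    · simp only at h1; omega
    · simp only at h1; omega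
    · simp only at h1; omega

theorem improve {K : Type u} [LinearOrder K] [WellFoundedLT K]
    (H2 : ∀ b : K, ∃ a : K, ¬ near a b) {C : Set (Pt K)} (hC : IsChain (· ≤ ·) C)
    (n k : ℕ) (b : K) (h1 : ∀ x ∈ C, x.lev = n + 1 → x.pos ≤ b)
    (h2 : ∀ x ∈ C, x.lev = n + 2 → x.pos ≤ b ∨ x.row < k) :
    ∃ D : Set (Pt K), IsChain (· ≤ ·) D ∧ #(C \ D : Set (Pt K)) < #(D \ C : Set (Pt K)) := by
  let I : Set (Pt K) := {x | x.pos ≤ b}
  let T : Set (Pt K) := {x | x.lev = n + 1 ∧ x.row = k ∧ near x.pos b}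
  have hT : IsChain (· ≤ ·) T := by
    rintro x ⟨hx1, hx2, _⟩ y ⟨hy1, hy2, _⟩ _
    rcases le_total x.pos y.pos with h | h
    · exact Or.inl (Or.inl ⟨by omega, h, by omega⟩)
    · exact Or.inr (Or.inl ⟨by omega, h, by omega⟩)
  have hcross : ∀ x ∈ C \ I, ∀ y ∈ T, x ≤ y ∨ y ≤ x := by
    rintro x ⟨hxC, hxI⟩ y ⟨hy1, hy2, hy3⟩
    have hxb : ¬ x.pos ≤ b := hxI
    rcases lt_trichotomy x.lev (n + 1) with hl | hl | hl
    · right
      rcases Nat.lt_or_ge x.lev n with hl' | hl'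
      · exact Or.inr (Or.inr (by omega))
      · exact Or.inr (Or.inl ⟨by omega, Or.inr (near_mono hy3 le_rfl (not_le.1 hxb).le)⟩)
    · exact absurd (h1 x hxC hl) hxb
    · left
      rcases Nat.lt_or_ge (n + 2) x.lev with hl' | hl'
      · exact Or.inr (Or.inr (by omega))
      · rcases h2 x hxC (by omega) with h | h
        · exact absurd h hxb
        · exact Or.inr (Or.inl ⟨by omega, Or.inl (by omega)⟩)
  refine ⟨(C \ I) ∪ T, ?_, ?_⟩
  · intro x hx y hy hne
    rcases hx with hx | hx <;> rcases hy with hy | hy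
    · exact hC hx.1 hy.1 hne
    · exact hcross x hx y hy
    · exact (hcross y hy x hx).symm
    · exact hT hx hy hne
  · have hI : #I ≤ sz b := mk_small_le b
    have hs1 : C \ ((C \ I) ∪ T) ⊆ I := by
      intro x hx
      by_contra hc
      exact hx.2 (Or.inl ⟨hx.1, hc⟩)
    have hs2 : T ⊆ (((C \ I) ∪ T) \ C) ∪ I := by
      intro x hx
      by_cases hxC : x ∈ C
      · exact Or.inr (h1 x hxC hx.1)
      · exact Or.inl ⟨Or.inr hx, hxC⟩
    have hTbig : sz b < #T := by
      refine (sz_lt_mk_near H2 b).trans_le ?_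
      refine mk_le_of_injective
        (f := fun a : {a : K | near a b} => (⟨⟨n + 1, a.1, k⟩, rfl, rfl, a.2⟩ : T)) ?_
      intro a a' h
      simp only [Subtype.mk.injEq, Pt.mk.injEq] at h
      exact Subtype.ext h.2.1
    refine lt_of_le_of_lt ((mk_le_mk_of_subset hs1).trans hI) ?_
    by_contra hc
    rw [not_lt] at hc
    have : #T ≤ sz b := by
      calc #T ≤ #((((C \ I) ∪ T) \ C) ∪ I : Set (Pt K)) := mk_le_mk_of_subset hs2
        _ ≤ #(((C \ I) ∪ T) \ C : Set (Pt K)) + #I := mk_union_le _ _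
        _ ≤ sz b + sz b := add_le_add hc hI
        _ = sz b := add_eq_self (aleph0_le_sz b)
    exact absurd hTbig (not_lt.2 this)

theorem no_smc {K : Type u} [LinearOrder K] [WellFoundedLT K] [Nonempty K]
    (H1 : ∀ f : ℕ → K, ∃ b, ∀ i, f i ≤ b) (H2 : ∀ b : K, ∃ a : K, ¬ near a b)
    {C : Set (Pt K)} (hC : IsChain (· ≤ ·) C) :
    ∃ D : Set (Pt K), IsChain (· ≤ ·) D ∧ #(C \ D : Set (Pt K)) < #(D \ C : Set (Pt K)) := by
  by_cases h : ∀ n, ∃ i, Row C (n + 1) i
  · exfalso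
    choose r hr using h
    have hdec : ∀ n, r (n + 1) < r n := fun n => row_lt H2 hC (hr (n + 1)) (hr n)
    have : ∀ n, r n + n ≤ r 0 := by
      intro n
      induction n with
      | zero => simp
      | succ n ih => have := hdec n; omega
    have := this (r 0 + 1)
    omega
  · simp only [not_forall, not_exists] at h
    obtain ⟨n, hn⟩ := h
    obtain ⟨b, hb⟩ := bounded_of_not_row H1 C (n + 1) hn
    by_cases h' : ∃ i, Row C (n + 2) i
    · obtain ⟨i, hi⟩ := h'
      exact improve H2 hC n (i + 1) b hb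
        (fun x hx hl => Or.inr (Nat.lt_succ_of_le (row_le H2 hC hi x hx hl)))
    · simp only [not_exists] at h'
      obtain ⟨b', hb'⟩ := bounded_of_not_row H1 C (n + 2) h'
      exact improve H2 hC n 0 (max b b') (fun x hx hl => (hb x hx hl).trans (le_max_left _ _))
        (fun x hx hl => Or.inl ((hb' x hx hl).trans (le_max_right _ _)))

/-- the long order: `ℵ_{ω₁}`. -/
abbrev KK : Type u := (ℵ_ (Ordinal.omega.{u} 1)).ord.ToType

theorem KK_H1 (f : ℕ → KK.{u}) : ∃ b, ∀ i, f i ≤ b := by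
  by_contra hc
  have hcof : IsCofinal (range f) := by
    intro x
    by_contra hx
    apply hc
    refine ⟨x, fun i => ?_⟩
    by_contra hi
    exact hx ⟨f i, mem_range_self i, (not_le.1 hi).le⟩
  have h1 := Order.cof_le hcof
  rw [Ordinal.cof_toType, ord_aleph, Ordinal.cof_omega (isSuccLimit_omega _), cof_omega_one] at h1
  have h2 : #(range f) ≤ ℵ₀ := (countable_range f).le_aleph0
  exact absurd (h1.trans h2) (not_le.2 aleph0_lt_aleph_one)

theorem KK_lim : IsSuccLimit (ℵ_ (Ordinal.omega.{u} 1)) :=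
  isNormal_aleph.map_isSuccLimit (isSuccLimit_omega _)

theorem KK_H2 (b : KK.{u}) : ∃ a : KK.{u}, ¬ near a b := by
  have h0 : ℵ₀ < ℵ_ (Ordinal.omega.{u} 1) := aleph0_lt_aleph.2 (Ordinal.omega_pos _)
  have h1 : #(Iio b) < ℵ_ (Ordinal.omega.{u} 1) := by simpa using mk_Iio_lt b
  have h2 : #(Iic b) < ℵ_ (Ordinal.omega.{u} 1) := by
    rw [← Iio_insert]
    exact mk_insert_le.trans_lt (add_lt_of_lt h0.le h1 (one_lt_aleph0.trans h0))
  have h3 : sz b < ℵ_ (Ordinal.omega.{u} 1) := max_lt h2 h0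
  have h4 : succ (succ (sz b)) < ℵ_ (Ordinal.omega.{u} 1) := KK_lim.succ_lt (KK_lim.succ_lt h3)
  have h5 : (succ (succ (sz b))).ord < Ordinal.type (α := KK.{u}) (· < ·) := by
    rw [Ordinal.type_toType]
    exact ord_lt_ord.2 h4
  obtain ⟨a, ha⟩ := Ordinal.typein_surj _ h5
  refine ⟨a, fun hn => ?_⟩
  have h6 : #(Iio a) = succ (succ (sz b)) := by
    have := Ordinal.card_typein (r := fun x y : KK.{u} => x < y) a
    rw [ha, card_ord] at this
    exact this.symm
  have h7 : #(Iio a) ≤ sz a := (mk_le_mk_of_subset Iio_subset_Iic_self).trans (le_max_left _ _)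
  rw [h6] at h7
  exact absurd (h7.trans hn) (not_le.2 (lt_succ _))

instance : Nonempty KK.{u} := by
  rw [Ordinal.nonempty_toType_iff]
  intro h
  rw [ord_eq_zero] at h
  exact (aleph_pos _).ne' h

end Pool.Agent.H225Z.SMC
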